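import Pool.Agent.H9.K2.Stmts
import Pool.Agent.H20.KA.TRC

/-!
# The class `(a, R)`: tubes
-/

set_option autoImplicit false

namespace Pool.KA

open Finset Real
open Pool.Agent.H49.Ent Pool.Agent.H32.Dense Pool.STK

namespace AP2

variable {m J : ℕ}

/-- A function of the line says little on the time. -/
lemma time_info (F : Fam m J) {e : ℝ} (he : F.Tm e) {S : Type} (Y : F.Ω → S)
    (hY : Det F.p F.l Y) : CH F.p Y F.Z ≤ CH F.p Y F.W + e := by
  have hp := F.isLaw.nonneg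
  have b := CH_bayes hp Y F.T F.Z
  have h1 : CH F.p F.T F.Z ≤ J * Real.log 2 := TRC.CH_lt F.isLaw F.T F.Z J F.tim
  have h2 : CH F.p F.T (fun ω => (F.l ω, F.Z ω)) ≤ CH F.p F.T (fun ω => (Y ω, F.Z ω)) := by
    refine CH_mono_cond hp ?_
    intro ω ω' a c h
    exact Prod.ext (hY ω ω' a c (Prod.ext_iff.1 h).1) (Prod.ext_iff.1 h).2
  have h3 : (fun ω => (F.T ω, F.Z ω)) = F.W := rfl
  rw [h3] at b
  unfold Fam.Tm at he
  linarith

/-- Given the position and the time, the coarse direction determines the coarse line. -/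
lemma line_le (F : Fam m J) (q : ℕ) (hq : q ≤ J) :
    CH F.p (F.L q) (fun ω => (F.X J ω, F.W ω)) ≤
      CH F.p (F.D q) (fun ω => (F.X J ω, F.W ω)) + cc m := by
  have hp := F.isLaw.nonneg
  have c1 : CH F.p (F.L q) (fun ω => (F.X J ω, F.W ω)) =
      CH F.p (F.D q) (fun ω => (F.X J ω, F.W ω)) +
        CH F.p (fun ω => fl q (F.u ω)) (fun ω => (F.D q ω, (F.X J ω, F.W ω))) :=
    CH_chain hp (fun ω => fl q (F.u ω)) (F.D q) (fun ω => (F.X J ω, F.W ω))
  have c2 : CH F.p (fun ω => fl q (F.u ω)) (fun ω => (F.D q ω, (F.X J ω, F.W ω))) ≤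
      CH F.p (fun _ => (fun _ => 0 : Fin m → ℤ)) (fun ω => (F.D q ω, (F.X J ω, F.W ω))) +
        cc m := by
    refine TRC.CH_le_round F.isLaw _ _ _ fun ω ω' _ _ h _ k => ?_
    have h1 := Prod.ext_iff.1 h
    have h2 := Prod.ext_iff.1 h1.2
    have hD : fl q (F.d ω) = fl q (F.d ω') := h1.1
    have hX : fl J (F.x ω) = fl J (F.x ω') := h2.1
    have hT : F.T ω = F.T ω' := (Prod.ext_iff.1 h2.2).1
    have hDk : ⌊(2 : ℝ) ^ q * F.d ω k⌋ = ⌊(2 : ℝ) ^ q * F.d ω' k⌋ := congrFun hD k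
    have hXk : ⌊(2 : ℝ) ^ J * F.x ω k⌋ = ⌊(2 : ℝ) ^ J * F.x ω' k⌋ := congrFun hX k
    have p1 : (0 : ℝ) < 2 ^ q := by positivity
    have p2 : (0 : ℝ) < 2 ^ J := by positivity
    have p3 : (2 : ℝ) ^ q ≤ 2 ^ J := pow_le_pow_right₀ (by norm_num) hq
    have a1 := Int.abs_sub_lt_one_of_floor_eq_floor hDk
    have a2 := Int.abs_sub_lt_one_of_floor_eq_floor hXk
    have a3 : |(2 : ℝ) ^ q * (F.x ω k - F.x ω' k)| ≤ 1 := by
      rw [← mul_sub, abs_mul, abs_of_pos p2] at a2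
      rw [abs_mul, abs_of_pos p1]
      exact (mul_le_mul_of_nonneg_right p3 (abs_nonneg _)).trans a2.le
    have ht0 : 0 ≤ F.t ω := by unfold Fam.t; positivity
    have ht1 : F.t ω ≤ 1 := by
      unfold Fam.t
      rw [div_le_one p2]
      exact_mod_cast (F.tim ω).le
    have htt : F.t ω' = F.t ω := by unfold Fam.t; rw [hT]
    have e1 : (2 : ℝ) ^ q * F.u ω k - 2 ^ q * F.u ω' k =
        2 ^ q * (F.x ω k - F.x ω' k) - F.t ω * (2 ^ q * F.d ω k - 2 ^ q * F.d ω' k) := by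
      unfold Fam.x
      rw [htt]
      ring
    have e2 : |F.t ω * ((2 : ℝ) ^ q * F.d ω k - 2 ^ q * F.d ω' k)| ≤ 1 := by
      rw [abs_mul, abs_of_nonneg ht0]
      calc F.t ω * |(2 : ℝ) ^ q * F.d ω k - 2 ^ q * F.d ω' k| ≤ 1 * 1 :=
            mul_le_mul ht1 a1.le (abs_nonneg _) (by norm_num)
        _ = 1 := one_mul 1
    have e3 : |(2 : ℝ) ^ q * F.u ω k - 2 ^ q * F.u ω' k| ≤ 2 := by
      rw [e1]
      refine (abs_sub _ _).trans ?_
      linarith
    have f1 := Int.floor_le ((2 : ℝ) ^ q * F.u ω k)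
    have f2 := Int.lt_floor_add_one ((2 : ℝ) ^ q * F.u ω k)
    have f3 := Int.floor_le ((2 : ℝ) ^ q * F.u ω' k)
    have f4 := Int.lt_floor_add_one ((2 : ℝ) ^ q * F.u ω' k)
    rw [abs_le] at e3
    change |((⌊(2 : ℝ) ^ q * F.u ω k⌋ - ⌊(2 : ℝ) ^ q * F.u ω' k⌋ : ℤ) : ℝ)| ≤ 49
    rw [abs_le]
    push_cast
    constructor <;> linarith [e3.1, e3.2]
  have c3 : CH F.p (fun _ => (fun _ => 0 : Fin m → ℤ))
      (fun ω => (F.D q ω, (F.X J ω, F.W ω))) = 0 := CH_eq_zero hp fun _ _ _ _ _ => rfl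
  rw [c1]
  linarith

end AP2

/-- **(P2) Tubes**: the fans are active at all scales. -/
theorem ap2_thm (hO : AOPStmt) : AP2Stmt := by
  intro m
  obtain ⟨C, hC, hO⟩ := hO m
  have hcc : 0 ≤ cc m := by
    unfold cc
    exact mul_nonneg (by positivity) (Real.log_nonneg (by norm_num))
  refine ⟨C + cc m, by positivity, ?_⟩
  intro J q hq F a R η e ha hη he h1 h2
  have hp := F.isLaw.nonneg
  have h3 := (hO J F a (by linarith)).2.2.1 q hq e he
  have hL : Det F.p F.l (F.L q) := by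
    intro ω ω' _ _ h
    have h4 := Prod.ext_iff.1 h
    change (fl q (F.u ω), fl q (F.d ω)) = (fl q (F.u ω'), fl q (F.d ω'))
    rw [show F.u ω = F.u ω' from h4.1, show F.d ω = F.d ω' from h4.2]
  have h4 := AP2.time_info F he (F.L q) hL
  have h5 := AP2.line_le F q hq
  have b1 := CH_bayes hp (F.L q) (F.D J) F.Z
  have b2 := CH_bayes hp (F.L q) (F.X J) F.W
  rw [abs_le] at h3
  unfold Fam.Ga at h1
  have hq0 : (0 : ℝ) ≤ q := Nat.cast_nonneg q
  have k1 : a * (CH F.p (F.L q) F.Z) ≤ a * (CH F.p (F.L q) F.W + e) :=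
    mul_le_mul_of_nonneg_left h4 (by linarith)
  have k2 : a * CH F.p (F.L q) (fun ω => (F.X J ω, F.W ω)) ≤
      a * (CH F.p (F.D q) (fun ω => (F.X J ω, F.W ω)) + cc m) :=
    mul_le_mul_of_nonneg_left h5 (by linarith)
  have k3 : 0 ≤ a * cc m := mul_nonneg (by linarith) hcc
  have k4 : 0 ≤ a * C := mul_nonneg (by linarith) hC
  have k5 : 0 ≤ η * q := mul_nonneg hη hq0
  have k6 : a * (CH F.p (F.L q) F.W - CH F.p (F.L q) (fun ω => (F.X J ω, F.W ω))) =
      a * (CH F.p (F.X J) F.W - CH F.p (F.X J) (fun ω => (F.L q ω, F.W ω))) := by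
    congr 1
    linarith
  nlinarith [h1, h2, h3.1, h3.2, k1, k2, k3, k4, k5, k6, b1]

end Pool.KA
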