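import Pool.Agent.H9.K2.Stmts2
import Pool.Agent.H34.KA.TYA

/-!
# Regular maximal families
-/

set_option autoImplicit false

namespace Pool.KA

open Finset Real
open Pool.Agent.H49.Ent Pool.Agent.H32.Dense Pool.STK

namespace RMX

lemma law_prop {Ω κ : Type} [Fintype Ω] (p : Ω → ℝ) (t : Ω → κ) (k : κ) :
    law p (fun ω => t ω = k) True = law p t k := by
  classical
  unfold law
  refine Finset.sum_congr rfl fun ω _ => ?_
  by_cases h : t ω = k
  · simp [h]
  · simp [h]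

lemma cond_prop {Ω κ : Type} [Fintype Ω] (p : Ω → ℝ) (t : Ω → κ) (k : κ) :
    Pool.Agent.H49.Ent.cond p (fun ω => t ω = k) True = Pool.Agent.H49.Ent.cond p t k := by
  classical
  funext ω
  unfold Pool.Agent.H49.Ent.cond
  rw [law_prop]
  by_cases h : t ω = k
  · simp [h]
  · simp [h]

end RMX

open Classical in
/-- **(1.4.3) Regular maximal families.** -/
theorem rmx_thm (hT : RTYStmt) (hA : AP5Stmt) : RMXStmt := by
  intro m a R ha hR hU N B e τ' hB he hτ'
  obtain ⟨M, hM⟩ := hT N B (e / 2) (1 / 2) hB (by positivity) (by norm_num)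
  have hMp : (0 : ℝ) < 2 * ((M : ℝ) + 1) := by positivity
  obtain ⟨η₁, hη₁, θ₁, hθ₁, J₁, h5⟩ := hA m a R ha hR hU (1 / (2 * ((M : ℝ) + 1)))
    (by positivity) τ' hτ' τ' hτ'
  refine ⟨min η₁ θ₁, lt_min hη₁ hθ₁, 1 / (2 * ((M : ℝ) + 1)), by positivity,
    max J₁ (⌈2 * Real.log (2 * ((M : ℝ) + 1)) / e⌉₊ + 1), ?_⟩
  intro J hJ F hF S f hf
  have hJ₁ : J₁ ≤ J := le_trans (le_max_left _ _) hJ
  have hJ₂ : ⌈2 * Real.log (2 * ((M : ℝ) + 1)) / e⌉₊ + 1 ≤ J := le_trans (le_max_right _ _) hJ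
  have hJ1 : 1 ≤ J := le_trans (Nat.le_add_left 1 _) hJ₂
  have hJ0 : (0 : ℝ) < J := by exact_mod_cast hJ1
  have hexp : Real.exp (-(e / 2 * J)) ≤ 1 / (2 * ((M : ℝ) + 1)) := by
    have h1 : 2 * Real.log (2 * ((M : ℝ) + 1)) / e ≤ J := by
      refine (Nat.le_ceil _).trans ?_
      exact_mod_cast (Nat.le_succ _).trans hJ₂
    rw [div_le_iff₀ he] at h1
    have h2 : Real.log (2 * ((M : ℝ) + 1)) ≤ e / 2 * J := by linarith
    rw [Real.exp_neg, ← one_div]
    refine one_div_le_one_div_of_le hMp ?_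
    rw [← Real.log_le_iff_le_exp hMp]
    exact h2
  obtain ⟨t, bad, hbad, ht⟩ := hM J hJ1 F.Ω S F.p F.isLaw f hf
  -- a type of positive probability
  obtain ⟨k, hk, hkp⟩ : ∃ k, k ≠ bad ∧ 1 / (2 * ((M : ℝ) + 1)) ≤ law F.p t k := by
    by_contra hcon
    push Not at hcon
    have h1 : ∑ k, law F.p t k = 1 := by rw [tya_law_sum, F.isLaw.sum_one]
    have h2 : ∑ k, law F.p t k = law F.p t bad + ∑ k ∈ univ.erase bad, law F.p t k := by
      rw [Finset.add_sum_erase _ _ (Finset.mem_univ bad)]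
    have h3 : ∑ k ∈ univ.erase bad, law F.p t k ≤
        ∑ k ∈ (univ : Finset (Fin M)).erase bad, 1 / (2 * ((M : ℝ) + 1)) :=
      Finset.sum_le_sum fun k hk => (hcon k (Finset.ne_of_mem_erase hk)).le
    rw [Finset.sum_const, nsmul_eq_mul] at h3
    have h4 : (((univ : Finset (Fin M)).erase bad).card : ℝ) ≤ M := by
      have : ((univ : Finset (Fin M)).erase bad).card ≤ (univ : Finset (Fin M)).card :=
        Finset.card_le_card (Finset.erase_subset _ _)
      rw [Finset.card_univ, Fintype.card_fin] at this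
      exact_mod_cast this
    have h5 : (((univ : Finset (Fin M)).erase bad).card : ℝ) * (1 / (2 * ((M : ℝ) + 1))) ≤
        M * (1 / (2 * ((M : ℝ) + 1))) := mul_le_mul_of_nonneg_right h4 (by positivity)
    have h6 : (M : ℝ) * (1 / (2 * ((M : ℝ) + 1))) < 1 / 2 := by
      rw [mul_one_div, div_lt_div_iff₀ hMp (by norm_num)]
      linarith
    linarith
  have hMx : F.NMa a R η₁ θ₁ := by
    obtain ⟨h1, h2⟩ := hF
    constructor
    · unfold Fam.Tm at h1 ⊢
      have : min η₁ θ₁ * (J : ℝ) ≤ θ₁ * J := mul_le_mul_of_nonneg_right (min_le_right _ _) hJ0.le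
      linarith
    · have : (R - η₁) * (J : ℝ) ≤ (R - min η₁ θ₁) * J :=
        mul_le_mul_of_nonneg_right (by linarith [min_le_left η₁ θ₁]) hJ0.le
      linarith
  have hlaw : 1 / (2 * ((M : ℝ) + 1)) ≤ law F.p (fun ω => t ω = k) True := by
    rw [RMX.law_prop]
    exact hkp
  obtain ⟨h, hN⟩ := h5 J hJ₁ F hMx (fun ω => t ω = k) hlaw
  refine ⟨fun ω => t ω = k, hlaw, h, hN, fun i => ?_⟩
  obtain ⟨h', hR'⟩ := ht k hk (hexp.trans hkp) i
  refine ⟨h', ?_⟩
  rw [RMX.cond_prop]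
  have e1 : 2 * (e / 2) * (J : ℝ) = e * J := by ring
  rwa [e1] at hR'

end Pool.KA
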